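import Mathlib

/-!
# Mann's theorem on vanishing sums of roots of unity

PROOF. Divide by `ζ i0`, so one term has `ζ = 1`. Let `n > 0` be minimal with `ζ i ^ n = 1` for all `i ∈ I`
(after the division), `w` a primitive `n`-th root of unity, `ζ i = w ^ a i`. Suppose a prime `p` divides
`n`, `p > card I` or `p ^ 2 ∣ n`; we get a contradiction. For `u` coprime to `n` the conjugate relation
`∑ c i * w ^ (u * a i) = 0` holds (`cyclotomic n ℚ` is irreducible, it is the minimal polynomial of `w` and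
of `w ^ u`). Take `u = 1 + l * (n / p)` and `ω = w ^ (n / p)`, a primitive `p`-th root of unity:
`w ^ (u * a i) = ζ i * ω ^ (l * a i)`. Put `S e = ∑ over a i = e mod p of c i * ζ i`.
If `p ^ 2 ∣ n` all `l = 0, .., p - 1` are allowed, and `∑_e ω ^ (l e) S e = 0` for all of them gives
`S e = 0` for all `e`. If `p` divides `n` exactly once, exactly one `l0` is not allowed (the one with
`p ∣ u`), and multiplying by `ω ^ (-l e')` and summing over `l ≠ l0` gives
`p * S e' = ω ^ (-l0 e') * (∑_e ω ^ (l0 e) S e)`; if `p > card I` some class is empty, so its `S` is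
`0`, so the bracket is `0` and all `S e` are `0`. So by minimality (`hmin`) only one class is nonempty, it
is the class of `0` (because of the term `ζ = 1`), all `a i` are divisible by `p`, and `n / p` contradicts
the minimality of `n`. Hence `n` is squarefree with all prime factors `≤ card I`, so `n ∣ (card I)!`.
-/

set_option autoImplicit false

namespace MP_cb3775_ag

open Nat

/-- conjugate relations -/
private lemma mann_conj {ι : Type} (I : Finset ι) (c : ι → ℚ) {n : ℕ} (hn : 0 < n) {w : ℂ}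
    (hw : IsPrimitiveRoot w n) (a : ι → ℕ) (hsum : ∑ i ∈ I, (c i : ℂ) * w ^ a i = 0) {u : ℕ}
    (hu : Nat.Coprime u n) : ∑ i ∈ I, (c i : ℂ) * w ^ (u * a i) = 0 := by
  set P : Polynomial ℚ := ∑ i ∈ I, Polynomial.C (c i) * Polynomial.X ^ a i with hP
  have hev : ∀ z : ℂ, Polynomial.aeval z P = ∑ i ∈ I, (c i : ℂ) * z ^ a i := by
    intro z
    rw [hP, map_sum]
    refine Finset.sum_congr rfl fun i _ => ?_
    rw [map_mul, Polynomial.aeval_C, map_pow, Polynomial.aeval_X]
    rfl
  have h1 : minpoly ℚ w ∣ P := minpoly.dvd ℚ w (by rw [hev, hsum])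
  rw [← Polynomial.cyclotomic_eq_minpoly_rat hw hn,
    Polynomial.cyclotomic_eq_minpoly_rat (hw.pow_of_coprime u hu) hn] at h1
  have h2 : Polynomial.aeval (w ^ u) P = 0 := by
    obtain ⟨Q, hQ⟩ := h1
    rw [hQ, map_mul, minpoly.aeval, zero_mul]
  rw [hev] at h2
  rw [← h2]
  refine Finset.sum_congr rfl fun i _ => ?_
  rw [← pow_mul]

private lemma mann_cop {p m l : ℕ} (hp : p.Prime) (h : ¬ p ∣ 1 + l * m) :
    Nat.Coprime (1 + l * m) (p * m) := by
  refine Nat.Coprime.mul_right ?_ ?_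
  · exact ((Nat.Prime.coprime_iff_not_dvd hp).2 h).symm
  · have : Nat.Coprime (1 + m * l) m := (Nat.coprime_add_mul_left_left 1 m l).2 (Nat.coprime_one_left m)
    rwa [mul_comm m l] at this

/-- the character sum -/
private lemma mann_char {p : ℕ} {ω : ℂ} (hω : IsPrimitiveRoot ω p) (k : ℕ) :
    ∑ l ∈ Finset.range p, ω ^ (l * k) = if p ∣ k then (p : ℂ) else 0 := by
  split_ifs with h
  · have h1 : ω ^ k = 1 := (hω.pow_eq_one_iff_dvd k).2 h
    have : ∀ l ∈ Finset.range p, ω ^ (l * k) = 1 := by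
      intro l _
      rw [mul_comm, pow_mul, h1, one_pow]
    rw [Finset.sum_congr rfl this]
    simp
  · have h1 : ω ^ k ≠ 1 := fun hc => h ((hω.pow_eq_one_iff_dvd k).1 hc)
    have h2 : ∀ l ∈ Finset.range p, ω ^ (l * k) = (ω ^ k) ^ l := by
      intro l _
      rw [mul_comm, pow_mul]
    rw [Finset.sum_congr rfl h2]
    have h3 := mul_geom_sum (ω ^ k) p
    have h4 : (ω ^ k) ^ p = 1 := by rw [← pow_mul, mul_comm, pow_mul, hω.pow_eq_one, one_pow]
    rw [h4, sub_self] at h3
    rcases mul_eq_zero.1 h3 with h5 | h5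
    · exact absurd (sub_eq_zero.1 h5) h1
    · exact h5

open Classical in
/-- the class sums -/
private lemma mann_class {ι : Type} (I : Finset ι) (c : ι → ℚ) {p m : ℕ} {w : ℂ}
    (hw : IsPrimitiveRoot (w ^ m) p) (a : ι → ℕ) (b : ℕ) :
    (p : ℂ) * ∑ i ∈ I.filter (fun i => p ∣ a i + b), (c i : ℂ) * w ^ a i =
      ∑ l ∈ Finset.range p, (w ^ m) ^ (l * b) * ∑ i ∈ I, (c i : ℂ) * w ^ ((1 + l * m) * a i) := by
  have h1 : ∀ l ∈ Finset.range p,
      (w ^ m) ^ (l * b) * ∑ i ∈ I, (c i : ℂ) * w ^ ((1 + l * m) * a i) =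
      ∑ i ∈ I, (c i : ℂ) * w ^ a i * (w ^ m) ^ (l * (a i + b)) := by
    intro l _
    rw [Finset.mul_sum]
    refine Finset.sum_congr rfl fun i _ => ?_
    ring
  rw [Finset.sum_congr rfl h1, Finset.sum_comm, Finset.mul_sum, Finset.sum_filter]
  refine Finset.sum_congr rfl fun i _ => ?_
  rw [← Finset.mul_sum, mann_char hw]
  split_ifs with h
  · ring
  · ring

/-- one prime -/
private lemma mann_prime {ι : Type} (I : Finset ι) (c : ι → ℚ) {p m : ℕ} (hp : p.Prime)
    (hm : 0 < m) {w : ℂ} (hw : IsPrimitiveRoot w (p * m)) (a : ι → ℕ)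
    (hsum : ∑ i ∈ I, (c i : ℂ) * w ^ a i = 0)
    (hmin : ∀ J ⊂ I, J.Nonempty → ∑ i ∈ J, (c i : ℂ) * w ^ a i ≠ 0)
    {j : ι} (hj : j ∈ I) (haj : p ∣ a j) (hcase : I.card < p ∨ p ∣ m) :
    ∀ i ∈ I, p ∣ a i := by
  classical
  have hpm : 0 < p * m := Nat.mul_pos hp.pos hm
  have hω : IsPrimitiveRoot (w ^ m) p := hw.pow hpm (mul_comm p m)
  have hp0 : (p : ℂ) ≠ 0 := by exact_mod_cast hp.ne_zero
  set R : ℕ → ℂ := fun l => ∑ i ∈ I, (c i : ℂ) * w ^ ((1 + l * m) * a i) with hR
  have hR0 : ∀ l, ¬ p ∣ 1 + l * m → R l = 0 := fun l hl =>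
    mann_conj I c hpm hw a hsum (mann_cop hp hl)
  have hcl := mann_class I c hω a
  have hS0 : ∑ i ∈ I.filter (fun i => p ∣ a i + 0), (c i : ℂ) * w ^ a i = 0 := by
    have hb : ∀ b, ∑ l ∈ Finset.range p, (w ^ m) ^ (l * b) * R l = 0 →
        ∑ i ∈ I.filter (fun i => p ∣ a i + b), (c i : ℂ) * w ^ a i = 0 := by
      intro b h
      have h1 := hcl b
      rw [h] at h1
      exact (mul_eq_zero.1 h1).resolve_left hp0
    apply hb
    by_cases hpm' : p ∣ m
    · refine Finset.sum_eq_zero fun l _ => ?_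
      rw [hR0 l, mul_zero]
      intro hc
      have : p ∣ 1 := (Nat.dvd_add_left (Dvd.dvd.mul_left hpm' l)).1 hc
      exact hp.one_lt.ne' (Nat.dvd_one.1 this)
    · have hcard : I.card < p := hcase.resolve_right hpm'
      by_cases hall : ∀ l ∈ Finset.range p, R l = 0
      · refine Finset.sum_eq_zero fun l hl => ?_
        rw [hall l hl, mul_zero]
      · push Not at hall
        obtain ⟨l0, hl0, hRl0⟩ := hall
        have hl0d : p ∣ 1 + l0 * m := by
          by_contra hc
          exact hRl0 (hR0 l0 hc)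
        have huniq : ∀ l ∈ Finset.range p, l ≠ l0 → R l = 0 := by
          intro l hl hne
          apply hR0
          intro hc
          have h1 : (1 + l * m) ≡ (1 + l0 * m) [MOD p] :=
            ((Nat.modEq_zero_iff_dvd.2 hc).trans (Nat.modEq_zero_iff_dvd.2 hl0d).symm)
          have h2 : l * m ≡ l0 * m [MOD p] := Nat.ModEq.add_left_cancel' 1 h1
          have h3 : l ≡ l0 [MOD p] :=
            Nat.ModEq.cancel_right_of_coprime ((Nat.Prime.coprime_iff_not_dvd hp).2 hpm') h2
          have h4 := h3.eq_of_lt_of_lt (Finset.mem_range.1 hl) (Finset.mem_range.1 hl0)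
          exact hne h4
        exfalso
        -- an empty class
        obtain ⟨b, hbI⟩ : ∃ b, ∀ i ∈ I, ¬ p ∣ a i + b := by
          by_contra hcon
          push Not at hcon
          have : p ≤ I.card := by
            have hsub : Finset.range p ⊆ I.image (fun i => (a i) % p) := by
              intro e he
              rw [Finset.mem_range] at he
              obtain ⟨i, hi, hdi⟩ := hcon (p - e)
              rw [Finset.mem_image]
              refine ⟨i, hi, ?_⟩
              have h5 : a i ≡ e [MOD p] := by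
                have h6 : a i + (p - e) ≡ e + (p - e) [MOD p] := by
                  refine (Nat.modEq_zero_iff_dvd.2 hdi).trans (Nat.modEq_zero_iff_dvd.2 ?_).symm
                  have : e + (p - e) = p := by omega
                  rw [this]
                exact Nat.ModEq.add_right_cancel' (p - e) h6
              have h7 : a i % p = e % p := h5
              rw [h7, Nat.mod_eq_of_lt he]
            have h8 := (Finset.card_le_card hsub).trans Finset.card_image_le
            rwa [Finset.card_range] at h8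
          omega
        have h9 := hcl b
        have h10 : I.filter (fun i => p ∣ a i + b) = ∅ := by
          rw [Finset.filter_eq_empty_iff]
          exact fun i hi => hbI i hi
        rw [h10, Finset.sum_empty, mul_zero] at h9
        have h11 : ∑ l ∈ Finset.range p, (w ^ m) ^ (l * b) * R l = (w ^ m) ^ (l0 * b) * R l0 := by
          refine Finset.sum_eq_single_of_mem l0 hl0 fun l hl hne => ?_
          rw [huniq l hl hne, mul_zero]
        have h12 : (w ^ m) ^ (l0 * b) * R l0 = 0 := by rw [← h11]; exact h9.symm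
        rcases mul_eq_zero.1 h12 with h13 | h13
        · exact pow_ne_zero _ (hω.ne_zero hp.ne_zero) h13
        · exact hRl0 h13
  have hfull : I.filter (fun i => p ∣ a i + 0) = I := by
    by_contra hne
    have hss : I.filter (fun i => p ∣ a i + 0) ⊂ I :=
      lt_of_le_of_ne (Finset.filter_subset _ _) hne
    exact hmin _ hss ⟨j, Finset.mem_filter.2 ⟨hj, by simpa using haj⟩⟩ hS0
  intro i hi
  rw [← hfull, Finset.mem_filter] at hi
  simpa using hi.2

/-- the normalised form -/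
private lemma mann_norm {ι : Type} (I : Finset ι) (c : ι → ℚ) (η : ι → ℂ)
    (hη : ∀ i ∈ I, ∃ k : ℕ, 0 < k ∧ η i ^ k = 1) (hsum : ∑ i ∈ I, (c i : ℂ) * η i = 0)
    (hmin : ∀ J ⊂ I, J.Nonempty → ∑ i ∈ J, (c i : ℂ) * η i ≠ 0)
    {j : ι} (hj : j ∈ I) (hηj : η j = 1) :
    ∀ i ∈ I, η i ^ (I.card)! = 1 := by
  classical
  have hex : ∃ n : ℕ, 0 < n ∧ ∀ i ∈ I, η i ^ n = 1 := by
    choose! k hk using hη
    refine ⟨∏ i ∈ I, k i, Finset.prod_pos fun i hi => (hk i hi).1, fun i hi => ?_⟩
    obtain ⟨t, ht⟩ := Finset.dvd_prod_of_mem k hi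
    rw [ht, pow_mul, (hk i hi).2, one_pow]
  set n := Nat.find hex with hn
  obtain ⟨hn0, hn1⟩ := Nat.find_spec hex
  rw [← hn] at hn0 hn1
  have hnmin : ∀ m, 0 < m → m < n → ¬ ∀ i ∈ I, η i ^ m = 1 := by
    intro m hm hmn hc
    exact Nat.find_min hex hmn ⟨hm, hc⟩
  have hw := Complex.isPrimitiveRoot_exp n hn0.ne'
  set w : ℂ := Complex.exp (2 * Real.pi * Complex.I / n) with hwdef
  have ha : ∀ i, ∃ a : ℕ, i ∈ I → (η i = w ^ a ∧ (i = j → a = 0)) := by
    intro i
    by_cases hi : i ∈ I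
    · by_cases hij : i = j
      · exact ⟨0, fun _ => ⟨by rw [hij, hηj, pow_zero], fun _ => rfl⟩⟩
      · have : NeZero n := ⟨hn0.ne'⟩
        obtain ⟨a, _, ha⟩ := hw.eq_pow_of_pow_eq_one (hn1 i hi)
        exact ⟨a, fun _ => ⟨ha.symm, fun h => absurd h hij⟩⟩
    · exact ⟨0, fun h => absurd h hi⟩
  choose a ha using ha
  have hηa : ∀ i ∈ I, η i = w ^ a i := fun i hi => (ha i hi).1
  have haj : a j = 0 := (ha j hj).2 rfl
  have hsum' : ∑ i ∈ I, (c i : ℂ) * w ^ a i = 0 := by
    rw [← hsum]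
    exact Finset.sum_congr rfl fun i hi => by rw [hηa i hi]
  have hmin' : ∀ J ⊂ I, J.Nonempty → ∑ i ∈ J, (c i : ℂ) * w ^ a i ≠ 0 := by
    intro J hJ hJn hc
    apply hmin J hJ hJn
    rw [← hc]
    exact Finset.sum_congr rfl fun i hi => by rw [hηa i (hJ.1 hi)]
  have key : ∀ p : ℕ, p.Prime → p ∣ n → ¬ (I.card < p ∨ p * p ∣ n) := by
    intro p hp hpn hcase
    obtain ⟨m, hm⟩ := hpn
    have hm0 : 0 < m := by
      rcases Nat.eq_zero_or_pos m with h | h
      · rw [h, mul_zero] at hm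
        omega
      · exact h
    have hcase' : I.card < p ∨ p ∣ m := by
      rcases hcase with h | h
      · exact Or.inl h
      · right
        rw [hm] at h
        exact Nat.dvd_of_mul_dvd_mul_left hp.pos h
    have hall := mann_prime I c hp hm0 (hm ▸ hw) a hsum' hmin' hj (by rw [haj]; exact dvd_zero p)
      hcase'
    apply hnmin m hm0
    · rw [hm]
      exact (Nat.lt_mul_iff_one_lt_left hm0).2 hp.one_lt
    · intro i hi
      obtain ⟨t, ht⟩ := hall i hi
      rw [hηa i hi, ht, ← pow_mul, hw.pow_eq_one_iff_dvd]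
      exact ⟨t, by rw [hm]; ring⟩
  have hsq : Squarefree n := by
    rw [Nat.squarefree_iff_prime_squarefree]
    intro p hp hc
    exact key p hp (dvd_trans (dvd_mul_right p p) hc) (Or.inr hc)
  have hdvd : n ∣ (I.card)! := by
    rw [← Nat.prod_primeFactors_of_squarefree hsq]
    refine Finset.prod_primes_dvd _ (fun p hp => (Nat.prime_of_mem_primeFactors hp).prime) ?_
    intro p hp
    have h1 := Nat.prime_of_mem_primeFactors hp
    have h2 := Nat.dvd_of_mem_primeFactors hp
    have h3 : p ≤ I.card := by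
      by_contra hc
      exact key p h1 h2 (Or.inl (by omega))
    exact Nat.dvd_factorial h1.pos h3
  intro i hi
  obtain ⟨t, ht⟩ := hdvd
  rw [ht, pow_mul, hn1 i hi, one_pow]

theorem mann {ι : Type} [DecidableEq ι] (I : Finset ι) (c : ι → ℚ) (ζ : ι → ℂ)
    (hζ : ∀ i ∈ I, ∃ k : ℕ, 0 < k ∧ ζ i ^ k = 1) (hsum : ∑ i ∈ I, (c i : ℂ) * ζ i = 0)
    (hmin : ∀ J ⊂ I, J.Nonempty → ∑ i ∈ J, (c i : ℂ) * ζ i ≠ 0) :
    ∀ i ∈ I, ∀ j ∈ I, (ζ i / ζ j) ^ (I.card)! = 1 := by
  intro i hi j hj
  have hne : ζ j ≠ 0 := by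
    obtain ⟨k, hk, hk1⟩ := hζ j hj
    intro h0
    rw [h0, zero_pow hk.ne'] at hk1
    exact zero_ne_one hk1
  have hdiv : ∀ J : Finset ι, ∑ i ∈ J, (c i : ℂ) * (ζ i / ζ j) = (∑ i ∈ J, (c i : ℂ) * ζ i) / ζ j := by
    intro J
    rw [Finset.sum_div]
    exact Finset.sum_congr rfl fun i _ => by rw [mul_div_assoc]
  refine mann_norm I c (fun i => ζ i / ζ j) ?_ ?_ ?_ hj (div_self hne) i hi
  · intro x hx
    obtain ⟨k, hk, hk1⟩ := hζ x hx
    obtain ⟨k', hk', hk1'⟩ := hζ j hj
    refine ⟨k * k', Nat.mul_pos hk hk', ?_⟩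
    show (ζ x / ζ j) ^ (k * k') = 1
    rw [div_pow, pow_mul, hk1, one_pow, mul_comm, pow_mul, hk1', one_pow, div_one]
  · rw [hdiv, hsum, zero_div]
  · intro J hJ hJn
    rw [hdiv]
    exact div_ne_zero (hmin J hJ hJn) hne

end MP_cb3775_ag
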