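import Pool.Agent.Lib.MP_cb3775_ag.A.TorQ

/-!
# Torsion points on a hypersurface of the torus

`torsion_hypersurface`: let `k` be the algebraic closure of `ℚ` in `ℂ` (`algebraicClosure ℚ ℂ`). Choose a
`k`-linear map `φ : ℂ → k` which is not `0` on one coefficient of `f` and apply it to the coefficients: `g` over
`k`, `g ≠ 0`, `g z = φ (f z) = 0` for torsion `z` with `f z = 0` (the monomials at `z` are in `k`). The ring
`MvPolynomial (Fin r) k` is integral over `MvPolynomial (Fin r) ℚ`, so the ideal `(g)` contains a nonzero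
`F` with rational coefficients (`Ideal.comap_ne_bot_of_integral_mem`), and `F z = 0`. Now `torsion_q`
with `L` = the nonzero differences of exponents in the support of `F`.
-/

set_option autoImplicit false

namespace MP_cb3775_ag

open Nat

attribute [local instance] MvPolynomial.algebraMvPolynomial in
theorem torsion_hypersurface {r : ℕ} (f : MvPolynomial (Fin r) ℂ) (hf : f ≠ 0) :
    ∃ (L : Finset (Fin r → ℤ)) (m : ℕ), 0 < m ∧ (∀ v ∈ L, v ≠ 0) ∧
      ∀ z : Fin r → ℂ, (∀ j, ∃ k : ℕ, 0 < k ∧ z j ^ k = 1) → MvPolynomial.eval z f = 0 →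
        ∃ v ∈ L, (∏ j, z j ^ v j) ^ m = 1 := by
  classical
  obtain ⟨d, hd⟩ := MvPolynomial.ne_zero_iff.1 hf
  obtain ⟨ell, hell⟩ := Module.Projective.exists_dual_ne_zero (algebraicClosure ℚ ℂ) hd
  let g : MvPolynomial (Fin r) (algebraicClosure ℚ ℂ) :=
    ∑ m ∈ f.support, MvPolynomial.monomial m (ell (f.coeff m))
  have hgd : g.coeff d = ell (f.coeff d) := by
    simp only [g, MvPolynomial.coeff_sum, MvPolynomial.coeff_monomial]
    rw [Finset.sum_ite_eq' f.support d]
    rw [if_pos (MvPolynomial.mem_support_iff.2 hd)]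
  have hg : g ≠ 0 := by
    intro h
    rw [h, MvPolynomial.coeff_zero] at hgd
    exact hell hgd.symm
  have hev : ∀ z : Fin r → ℂ, (∀ j, ∃ k : ℕ, 0 < k ∧ z j ^ k = 1) →
      MvPolynomial.eval z f = 0 → MvPolynomial.aeval z g = 0 := by
    intro z hz h0
    have hzk : ∀ j, z j ∈ algebraicClosure ℚ ℂ := by
      intro j
      obtain ⟨k, hk, h1⟩ := hz j
      exact mem_algebraicClosure_iff'.2 (IsIntegral.of_pow hk (by rw [h1]; exact isIntegral_one))
    have htk : ∀ m : Fin r →₀ ℕ, (∏ j, z j ^ m j) ∈ algebraicClosure ℚ ℂ := fun m =>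
      prod_mem fun j _ => pow_mem (hzk j) _
    have h1 : ell (MvPolynomial.eval z f) =
        ∑ m ∈ f.support, (⟨∏ j, z j ^ m j, htk m⟩ : algebraicClosure ℚ ℂ) * ell (f.coeff m) := by
      rw [MvPolynomial.eval_eq', map_sum]
      refine Finset.sum_congr rfl fun m _ => ?_
      have h2 : f.coeff m * ∏ j, z j ^ m j =
          (⟨∏ j, z j ^ m j, htk m⟩ : algebraicClosure ℚ ℂ) • f.coeff m := by
        rw [mul_comm]
        rfl
      rw [h2, map_smul, smul_eq_mul]
    rw [h0, map_zero] at h1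
    have h3 : MvPolynomial.aeval z g = algebraMap (algebraicClosure ℚ ℂ) ℂ (∑ m ∈ f.support,
        (⟨∏ j, z j ^ m j, htk m⟩ : algebraicClosure ℚ ℂ) * ell (f.coeff m)) := by
      simp only [g, map_sum, MvPolynomial.aeval_monomial]
      refine Finset.sum_congr rfl fun m _ => ?_
      rw [Finsupp.prod_fintype _ _ (fun i => pow_zero _), mul_comm, map_mul]
      rfl
    rw [h3, ← h1, map_zero]
  have hal : Algebra.IsIntegral ℚ (algebraicClosure ℚ ℂ) :=
    (algebraicClosure.isAlgebraic ℚ ℂ).isIntegral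
  have hint : IsIntegral (MvPolynomial (Fin r) ℚ) g := Algebra.IsIntegral.isIntegral g
  have hc := Ideal.comap_ne_bot_of_integral_mem (R := MvPolynomial (Fin r) ℚ)
    (I := Ideal.span {g}) hg (Ideal.mem_span_singleton_self g) hint
  obtain ⟨F, hF, hF0⟩ := Submodule.exists_mem_ne_zero_of_ne_bot hc
  obtain ⟨h, hh⟩ := Ideal.mem_span_singleton'.1 (Ideal.mem_comap.1 hF)
  have hFz : ∀ z : Fin r → ℂ, MvPolynomial.aeval z g = 0 → MvPolynomial.aeval z F = 0 := by
    intro z hz
    have h1 : MvPolynomial.aeval z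
        (MvPolynomial.map (algebraMap ℚ (algebraicClosure ℚ ℂ)) F) = 0 := by
      have h2 : MvPolynomial.map (algebraMap ℚ (algebraicClosure ℚ ℂ)) F = h * g := hh.symm
      rw [h2, map_mul, hz, mul_zero]
    rwa [MvPolynomial.aeval_map_algebraMap] at h1
  refine ⟨(F.support ×ˢ F.support).filter (fun p => p.1 ≠ p.2) |>.image
    (fun p => fun j => (p.1 j : ℤ) - p.2 j), (F.support.card)!, Nat.factorial_pos _, ?_, ?_⟩
  · intro v hv
    obtain ⟨p, hp, rfl⟩ := Finset.mem_image.1 hv
    obtain ⟨_, hne⟩ := Finset.mem_filter.1 hp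
    intro h0
    refine hne (Finsupp.ext fun j => ?_)
    have h1 := congrFun h0 j
    simp only [Pi.zero_apply] at h1
    omega
  · intro z hz h0
    obtain ⟨v, hv, w, hw, hne, h1⟩ := torsion_q F z hz (hFz z (hev z hz h0)) hF0
    refine ⟨fun j => (v j : ℤ) - w j, Finset.mem_image.2 ⟨(v, w), Finset.mem_filter.2
      ⟨Finset.mem_product.2 ⟨hv, hw⟩, hne⟩, rfl⟩, ?_⟩
    have hz0 : ∀ j, z j ≠ 0 := by
      intro j hj
      obtain ⟨k, hk, h2⟩ := hz j
      rw [hj, zero_pow hk.ne'] at h2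
      exact zero_ne_one h2
    have h2 : ∏ j, z j ^ ((v j : ℤ) - w j) = (∏ j, z j ^ v j) / (∏ j, z j ^ w j) := by
      rw [← Finset.prod_div_distrib]
      refine Finset.prod_congr rfl fun j _ => ?_
      rw [zpow_sub₀ (hz0 j), zpow_natCast, zpow_natCast]
    rw [h2]
    exact h1

end MP_cb3775_ag
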