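import Pool.Agent.Lib.MP_cb3775_ag.A.Mann

/-!
# Torsion points on a hypersurface of the torus

`torsion_q`: take a minimal nonempty subset `J` of the support of `f` with vanishing subsum at `z`; it has
at least two elements (a single term is nonzero), apply `mann` (`(card J)! ∣ (card support)!`).
-/

set_option autoImplicit false

namespace MP_cb3775_ag

open Nat

private theorem torQ_root {r : ℕ} {z : Fin r → ℂ} (hz : ∀ j, ∃ k : ℕ, 0 < k ∧ z j ^ k = 1)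
    (v : Fin r →₀ ℕ) : ∃ k : ℕ, 0 < k ∧ (∏ j, z j ^ v j) ^ k = 1 := by
  choose k hk0 hk1 using hz
  refine ⟨∏ j, k j, Finset.prod_pos fun j _ => hk0 j, ?_⟩
  rw [← Finset.prod_pow]
  refine Finset.prod_eq_one fun j _ => ?_
  obtain ⟨m, hm⟩ := Finset.dvd_prod_of_mem k (Finset.mem_univ j)
  rw [← pow_mul, mul_comm, hm, pow_mul, pow_mul, hk1 j, one_pow, one_pow]

theorem torsion_q {r : ℕ} (f : MvPolynomial (Fin r) ℚ) (z : Fin r → ℂ)
    (hz : ∀ j, ∃ k : ℕ, 0 < k ∧ z j ^ k = 1) (h : MvPolynomial.aeval z f = 0) (hf : f ≠ 0) :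
    ∃ v ∈ f.support, ∃ w ∈ f.support, v ≠ w ∧
      ((∏ j, z j ^ v j) / (∏ j, z j ^ w j)) ^ (f.support.card)! = 1 := by
  classical
  set ζ : (Fin r →₀ ℕ) → ℂ := fun v => ∏ j, z j ^ v j with hζ
  have hs : ∑ v ∈ f.support, ((f.coeff v : ℚ) : ℂ) * ζ v = 0 := by
    rw [MvPolynomial.aeval_def, MvPolynomial.eval₂_eq'] at h
    rw [← h]
    exact Finset.sum_congr rfl fun v _ => rfl
  have hne : f.support.Nonempty := MvPolynomial.support_nonempty.2 hf
  obtain ⟨J, hJ⟩ := exists_minimal_of_wellFoundedLT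
    (fun J : Finset (Fin r →₀ ℕ) => J ⊆ f.support ∧ J.Nonempty ∧
      ∑ v ∈ J, ((f.coeff v : ℚ) : ℂ) * ζ v = 0) ⟨f.support, Finset.Subset.refl _, hne, hs⟩
  obtain ⟨⟨hJ1, hJ2, hJ3⟩, hJ4⟩ := hJ
  have hmin : ∀ I ⊂ J, I.Nonempty → ∑ i ∈ I, ((f.coeff i : ℚ) : ℂ) * ζ i ≠ 0 := by
    intro I hI hI0 hI1
    exact hI.2 (hJ4 ⟨hI.1.trans hJ1, hI0, hI1⟩ hI.1)
  have hm := mann J (fun v => f.coeff v) ζ (fun v _ => torQ_root hz v) hJ3 hmin
  have hcard : 1 < J.card := by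
    rcases Nat.lt_or_ge 1 J.card with h1 | h1
    · exact h1
    · exfalso
      obtain ⟨v, hv⟩ := Finset.card_eq_one.1 (le_antisymm h1 hJ2.card_pos)
      rw [hv, Finset.sum_singleton] at hJ3
      have hvs : v ∈ f.support := hJ1 (by rw [hv]; exact Finset.mem_singleton_self v)
      have h2 : ((f.coeff v : ℚ) : ℂ) ≠ 0 := by
        rw [Ne, Rat.cast_eq_zero]
        exact MvPolynomial.mem_support_iff.1 hvs
      have h3 : ζ v ≠ 0 := by
        intro h0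
        obtain ⟨k, hk, hk1⟩ := torQ_root hz v
        have h4 : ζ v ^ k = 1 := hk1
        rw [h0, zero_pow hk.ne'] at h4
        exact zero_ne_one h4
      exact (mul_ne_zero h2 h3) hJ3
  obtain ⟨v, hv, w, hw, hvw⟩ := Finset.one_lt_card.1 hcard
  refine ⟨v, hJ1 hv, w, hJ1 hw, hvw, ?_⟩
  obtain ⟨m, hm'⟩ := Nat.factorial_dvd_factorial (Finset.card_le_card hJ1)
  have h5 := hm v hv w hw
  rw [hm', pow_mul]
  have h6 : (ζ v / ζ w) ^ (J.card)! = 1 := h5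
  change ((ζ v / ζ w) ^ (J.card)!) ^ m = 1
  rw [h6, one_pow]

end MP_cb3775_ag
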